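import Pool.Agent.Helper59.V8.Wt
import Pool.Agent.Helper57.EV4.Zfree

/-!
# EV4b: the zeros when the weights of the Seifert circles are at most `12 / 5 + 7 / 5 * α`
-/

set_option autoImplicit false

namespace Pool.Agent.Helper53.EV4

open Complex Finset Polynomial Pool.Agent.Helper85.Exp Pool.Agent.Helper60.EV2 Pool.Agent.Helper2.PD Pool.Agent.Helper16.PD Pool.Agent.Helper43.Pln
  Pool.Agent.Helper30.VQ Pool.Agent.Helper59.V8 Pool.Agent.Helper43.V6

variable {P : Type} [Fintype P] {G : Sh P}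

/-- **The lens for weights.** -/
theorem lens_weight (hG : Plane G) (nab : Dg G → ℤ[X]) (hn : Cs nab) {α B : ℝ} (h0 : 0 ≤ α) (h1 : α ≤ 1)
    (h : ∀ p, weight α G p + weight α G (G.op p) ≤ B) {s : ℂ} (hs0 : s ≠ 0) (hs1 : normSq s ≠ 1)
    (hz : aeval (s⁻¹ - s) (nab (allPos G)) = 0) : (1 + normSq s) / 2 + α * |s.re| ≤ B * |s.im| := by
  refine lens hG nab hn hs0 hs1 hz (B := B) h0 (wt α (seifert G) (Pool.Agent.Helper59.V8.side G))
    (fun e => wt_apply (α := α) (seifert G) (Pool.Agent.Helper59.V8.side G) e) (fun c hc => ⟨fun e => ?_, fun x _ => ?_⟩)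
  · refine cycle_wt h0 h1 (seifert G) (fun e => c (Lf G e)) (fun e => c (Rf G e)) (Pool.Agent.Helper59.V8.side G) (fun e he => ?_) (fun e he => ?_) e
    · show c (Rf G (seifert G e)) = c (Rf G e)
      rw [step_true hG.cross he]
    · show c (Lf G (seifert G e)) = c (Lf G e)
      rw [step_false hG.cross he]
  · have hw : ∀ e, wt α (seifert G) (Pool.Agent.Helper59.V8.side G) (seifert G e) = wt α (seifert G) (Pool.Agent.Helper59.V8.side G) e :=
      fun e => wt_apply (α := α) (seifert G) (Pool.Agent.Helper59.V8.side G) e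
    have e1 : wt α (seifert G) (Pool.Agent.Helper59.V8.side G) (G.nxt.symm x.1) = wt α (seifert G) (Pool.Agent.Helper59.V8.side G) (G.op x.1) := by
      rw [← hw (G.nxt.symm x.1), seifert_apply, Equiv.apply_symm_apply]
    have e2 : wt α (seifert G) (Pool.Agent.Helper59.V8.side G) (G.nxt.symm (G.op x.1)) = wt α (seifert G) (Pool.Agent.Helper59.V8.side G) x.1 := by
      rw [← hw (G.nxt.symm (G.op x.1)), seifert_apply, Equiv.apply_symm_apply, G.op_op]
    have e3 : ∀ q, wt α (seifert G) (Pool.Agent.Helper59.V8.side G) q = weight α G q := wt_eq hG.cross α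
    rw [e1, e2, e3, e3, add_comm]
    exact h x.1

/-- real and imaginary part of `s⁻¹ - s` -/
theorem parts {s : ℂ} (hs0 : s ≠ 0) :
    (s⁻¹ - s).re = s.re * (1 - normSq s) / normSq s ∧ (s⁻¹ - s).im = -(s.im * (1 + normSq s)) / normSq s := by
  have hn0 : normSq s ≠ 0 := (normSq_pos.2 hs0).ne'
  constructor
  · rw [sub_re, inv_re]
    field_simp
  · rw [sub_im, inv_im]
    field_simp
    ring

/-- the zero-free region from the lens (proof of helper57) -/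
theorem zf_of_lens {N : ℝ} {z : ℂ} (h : ∀ s : ℂ, s ≠ 0 → normSq s ≠ 1 → s⁻¹ - s = z → 2 * (1 + normSq s) ≤ N * |s.im|) :
    (z.re = 0 ∧ |z.im| ≤ 2) ∨ (8 ≤ N * |z.im| ∧ 4 * |z.re| ≤ N * |z.im| ∧ ‖z‖ ≤ N / 2) := by
  obtain ⟨s, hs0, rfl⟩ := exists_s z
  have hn' : normSq s = s.re ^ 2 + s.im ^ 2 := by rw [normSq_apply]; ring
  have hn0 : 0 < normSq s := normSq_pos.2 hs0
  obtain ⟨h1, h2⟩ := parts hs0
  by_cases hs1 : normSq s = 1
  · left
    rw [h1, h2, hs1]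
    refine ⟨by simp, ?_⟩
    have h5 : s.im ^ 2 ≤ 1 := by nlinarith [sq_nonneg s.re]
    have h6 : |s.im| ≤ 1 := by rwa [sq_le_one_iff_abs_le_one] at h5
    rw [div_one, abs_neg, abs_mul]
    norm_num
    linarith
  · right
    have h := h s hs0 hs1 rfl
    set n := normSq s with hndef
    have hN0 : 0 ≤ N * |s.im| := by nlinarith
    have hN1 : 0 < N := by
      by_contra hcon
      push Not at hcon
      nlinarith [abs_nonneg s.im, mul_nonneg (neg_nonneg.2 hcon) (abs_nonneg s.im)]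
    have hre : |(s⁻¹ - s).re| = |s.re| * |1 - n| / n := by
      rw [h1, abs_div, abs_mul, abs_of_pos hn0]
    have him : |(s⁻¹ - s).im| = |s.im| * (1 + n) / n := by
      rw [h2, abs_div, abs_neg, abs_mul, abs_of_pos hn0, abs_of_pos (by linarith : 0 < 1 + n)]
    have hA : 2 * (1 + n) * (1 + n) ≤ N * |s.im| * (1 + n) := mul_le_mul_of_nonneg_right h (by linarith)
    have hsre : |s.re| * |1 - n| ≤ (1 + n) * (1 + n) / 2 := by
      have a1 : |s.re| ^ 2 ≤ n := by rw [sq_abs, hn']; nlinarith [sq_nonneg s.im]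
      have a2 : |1 - n| ≤ 1 + n := by
        rw [abs_le]
        constructor <;> linarith
      have a3 : |s.re| ≤ (1 + n) / 2 := by
        nlinarith [sq_nonneg (|s.re| - 1)]
      have a4 := abs_nonneg (1 - n)
      have a5 := abs_nonneg s.re
      nlinarith [mul_le_mul a3 a2 a4 (by linarith)]
    refine ⟨?_, ?_, ?_⟩
    · rw [him, mul_div_assoc', le_div_iff₀ hn0]
      nlinarith [sq_nonneg (n - 1)]
    · rw [hre, him, mul_div_assoc', mul_div_assoc', div_le_div_iff_of_pos_right hn0]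
      nlinarith
    · have hs : normSq s = ‖s‖ ^ 2 := Complex.normSq_eq_norm_sq s
      have hs2 : 0 < ‖s‖ := norm_pos_iff.2 hs0
      have b1 : |s.im| ≤ ‖s‖ := Complex.abs_im_le_norm s
      have b2 : ‖s⁻¹ - s‖ ≤ ‖s‖⁻¹ + ‖s‖ := (norm_sub_le _ _).trans (by rw [norm_inv])
      have b3 : 2 * (1 + ‖s‖ ^ 2) ≤ N * ‖s‖ := by
        rw [← hs]
        exact h.trans (mul_le_mul_of_nonneg_left b1 hN1.le)
      have b4 : ‖s‖⁻¹ + ‖s‖ = (1 + ‖s‖ ^ 2) / ‖s‖ := by
        field_simp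
      refine b2.trans ?_
      rw [b4, div_le_iff₀ hs2]
      linarith

/-- the polynomial inequality -/
theorem ineq {a b m α : ℝ} (ha : 0 ≤ a) (hb : 0 ≤ b) (hm : 0 ≤ m) (h0 : 0 ≤ α) (h1 : α ≤ 1)
    (h : m + α * a ≤ (12 / 5 + 7 / 5 * α) * b) : m ^ 2 * (a ^ 2 - 99 / 100 * b ^ 2) ≤ a ^ 2 * (a ^ 2 + b ^ 2) := by
  rcases le_or_gt (a ^ 2 - 99 / 100 * b ^ 2) 0 with hc | hc
  · have := mul_nonneg (sq_nonneg m) (neg_nonneg.2 hc)
    nlinarith [sq_nonneg a, sq_nonneg b, mul_nonneg (sq_nonneg a) (sq_nonneg b)]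
  · have k0 : (12 / 5 * b) ^ 2 * (a ^ 2 - 99 / 100 * b ^ 2) ≤ a ^ 2 * (a ^ 2 + b ^ 2) := by
      nlinarith [sq_nonneg (a ^ 2 - 2.38 * b ^ 2), sq_nonneg (b ^ 2)]
    have k1 : (19 / 5 * b - a) ^ 2 * (a ^ 2 - 99 / 100 * b ^ 2) ≤ a ^ 2 * (a ^ 2 + b ^ 2) := by
      have e : a ^ 2 * (a ^ 2 + b ^ 2) - (19 / 5 * b - a) ^ 2 * (a ^ 2 - 99 / 100 * b ^ 2) =
          b * (7.6 * a ^ 3 - 12.45 * a ^ 2 * b - 7.524 * a * b ^ 2 + 14.2956 * b ^ 3) := by ring
      have e2 : 0 ≤ 7.6 * a ^ 3 - 12.45 * a ^ 2 * b - 7.524 * a * b ^ 2 + 14.2956 * b ^ 3 := by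
        nlinarith [mul_nonneg ha (sq_nonneg (a - 1.3386 * b)), mul_nonneg hb (sq_nonneg (a - 1.3386 * b)), mul_nonneg hb (sq_nonneg b),
          mul_nonneg ha (sq_nonneg b)]
      have := mul_nonneg hb e2
      linarith
    have k2 : m ≤ (1 - α) * (12 / 5 * b) + α * (19 / 5 * b - a) := by linarith
    have k3 : m ^ 2 ≤ ((1 - α) * (12 / 5 * b) + α * (19 / 5 * b - a)) ^ 2 := pow_le_pow_left₀ hm k2 2
    have k4 : ((1 - α) * (12 / 5 * b) + α * (19 / 5 * b - a)) ^ 2 ≤ (1 - α) * (12 / 5 * b) ^ 2 + α * (19 / 5 * b - a) ^ 2 := by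
      have e : (1 - α) * (12 / 5 * b) ^ 2 + α * (19 / 5 * b - a) ^ 2 - ((1 - α) * (12 / 5 * b) + α * (19 / 5 * b - a)) ^ 2 =
          α * (1 - α) * (12 / 5 * b - (19 / 5 * b - a)) ^ 2 := by ring
      have := mul_nonneg (mul_nonneg h0 (by linarith : 0 ≤ 1 - α)) (sq_nonneg (12 / 5 * b - (19 / 5 * b - a)))
      linarith
    have k5 := mul_le_mul_of_nonneg_right (k3.trans k4) hc.le
    nlinarith [mul_le_mul_of_nonneg_left k0 (by linarith : 0 ≤ 1 - α), mul_le_mul_of_nonneg_left k1 h0]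

/-- **The zeros lie strictly in the left half plane.** -/
theorem sec_of_lens {α : ℝ} (h0 : 0 ≤ α) (h1 : α ≤ 1) {z : ℂ}
    (h : ∀ s : ℂ, s ≠ 0 → normSq s ≠ 1 → s⁻¹ - s = z → (1 + normSq s) / 2 + α * |s.re| ≤ (12 / 5 + 7 / 5 * α) * |s.im|) :
    (z ^ 2).re ≤ -(1 / 200 * ‖z ^ 2‖) := by
  have key : z.re ^ 2 ≤ 99 / 100 * z.im ^ 2 := by
    obtain ⟨s, hs0, rfl⟩ := exists_s z
    have hn' : normSq s = s.re ^ 2 + s.im ^ 2 := by rw [normSq_apply]; ring
    have hn0 : 0 < normSq s := normSq_pos.2 hs0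
    obtain ⟨e1, e2⟩ := parts hs0
    by_cases hs1 : normSq s = 1
    · rw [e1, e2, hs1]
      simp
      positivity
    · have h3 := h s hs0 hs1 rfl
      have h4 := ineq (abs_nonneg s.re) (abs_nonneg s.im) (by linarith : 0 ≤ (1 + normSq s) / 2) h0 h1 h3
      rw [sq_abs, sq_abs, ← hn'] at h4
      rw [e1, e2, div_pow, div_pow, mul_div_assoc', div_le_div_iff_of_pos_right (by positivity)]
      nlinarith
  have h2 : (z ^ 2).re = z.re ^ 2 - z.im ^ 2 := by rw [pow_two, mul_re]; ring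
  have h3 : ‖z ^ 2‖ = z.re ^ 2 + z.im ^ 2 := by
    rw [norm_pow, ← Complex.normSq_eq_norm_sq, normSq_apply]; ring
  rw [h2, h3]
  nlinarith [sq_nonneg z.im]

end Pool.Agent.Helper53.EV4
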