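import Pool.Agent.Helper3.EVC.E13a
import Pool.Agent.Helper3.EVC.E03
import Pool.Agent.Helper74.EV4.Hyp

/-!
# EV4b, analytic half: decay from a sector

If all roots `ρ` satisfy `Re ρ ≤ - δ |ρ|` and the degree is linear in `L`, then `|P|` decays away from the positive axis.
-/

set_option autoImplicit false

namespace Pool.Agent.Helper53.EV4

open Polynomial EVC EVC.E03 Pool.Agent.Helper74.EV4

/-- the quotient of one factor and its conjugate -/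
theorem factor_sq {r x y c δ s : ℝ} (hr : 0 < r) (hs : 0 ≤ s) (hs2 : s ^ 2 = x ^ 2 + y ^ 2) (hδ : 0 < δ) (hx : x ≤ -(δ * s)) (hc : c ≤ 1) (hc1 : -1 ≤ c) :
    (r ^ 2 + x ^ 2 - y ^ 2 - 2 * r * c * x) ^ 2 + (2 * x * y - 2 * r * c * y) ^ 2 ≤
      (1 - δ * (1 - c) * (s * r / (r ^ 2 + s ^ 2))) * ((r - x) ^ 2 + y ^ 2) ^ 2 := by
  have hA : 0 < r ^ 2 + s ^ 2 := by positivity
  obtain ⟨A, hAd⟩ : ∃ A, A = r ^ 2 + s ^ 2 := ⟨_, rfl⟩
  obtain ⟨b, hb⟩ : ∃ b, b = -2 * x * r := ⟨_, rfl⟩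
  have hxs : -x ≤ s := by nlinarith [sq_nonneg y, sq_nonneg (s + x)]
  have hb1 : 2 * δ * s * r ≤ b := by rw [hb]; nlinarith
  have hb2 : b ≤ 2 * s * r := by rw [hb]; nlinarith
  have hb3 : 2 * s * r ≤ A := by rw [hAd]; nlinarith [sq_nonneg (r - s)]
  have hb0 : 0 ≤ b := le_trans (by positivity) hb1
  have hA0 : 0 < A := by rw [hAd]; exact hA
  have e1 : (r ^ 2 + x ^ 2 - y ^ 2 - 2 * r * c * x) ^ 2 + (2 * x * y - 2 * r * c * y) ^ 2 =
      (A + b) ^ 2 - (2 * A * b * (1 - c) + 4 * r ^ 2 * s ^ 2 * (1 - c ^ 2)) := by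
    rw [hAd, hb, hs2]; ring
  have e2 : ((r - x) ^ 2 + y ^ 2) ^ 2 = (A + b) ^ 2 := by
    rw [hAd, hb, hs2]; ring
  rw [e1, e2, ← hAd]
  have h1 : δ * (1 - c) * (s * r / A) * (A + b) ^ 2 ≤ 2 * A * b * (1 - c) := by
    have h2 : (A + b) ^ 2 ≤ 4 * A ^ 2 := by nlinarith
    have h3 : 0 ≤ δ * (1 - c) * (s * r / A) := by
      have : 0 ≤ 1 - c := by linarith
      positivity
    calc δ * (1 - c) * (s * r / A) * (A + b) ^ 2 ≤ δ * (1 - c) * (s * r / A) * (4 * A ^ 2) := mul_le_mul_of_nonneg_left h2 h3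
      _ = (1 - c) * (2 * A) * (2 * δ * s * r) := by field_simp; ring
      _ ≤ (1 - c) * (2 * A) * b := mul_le_mul_of_nonneg_left hb1 (mul_nonneg (by linarith) (by linarith))
      _ = 2 * A * b * (1 - c) := by ring
  have h2 : 0 ≤ 4 * r ^ 2 * s ^ 2 * (1 - c ^ 2) := by
    have : 0 ≤ 1 - c ^ 2 := by nlinarith
    positivity
  nlinarith

/-- one factor of `sq_formula` -/
theorem factor_le {r c δ : ℝ} {ρ : ℂ} (hr : 0 < r) (hc : c ≤ 1) (hc1 : -1 ≤ c) (hδ : 0 < δ) (hρ : ρ ≠ 0) (hx : ρ.re ≤ -(δ * ‖ρ‖)) :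
    ‖1 - 2 * (1 - (c : ℂ)) * (p r ρ * (1 - p r ρ))‖ ≤
      Real.exp (-(δ / 2 * (1 - c) * (‖ρ‖ * r / (r ^ 2 + ‖ρ‖ ^ 2)))) := by
  have hn : 0 < ‖ρ‖ := norm_pos_iff.2 hρ
  have hre : ρ.re < 0 := by nlinarith [mul_pos hδ hn]
  have h0 : (r : ℂ) - ρ ≠ 0 := by
    intro h
    have := congrArg Complex.re h
    simp at this
    linarith
  have h1 : 1 - 2 * (1 - (c : ℂ)) * (p r ρ * (1 - p r ρ)) =
      ((r : ℂ) ^ 2 + ρ ^ 2 - 2 * r * (c : ℂ) * ρ) / ((r : ℂ) - ρ) ^ 2 := by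
    unfold p
    field_simp
    ring
  have hs2 : ‖ρ‖ ^ 2 = ρ.re ^ 2 + ρ.im ^ 2 := by
    rw [← Complex.normSq_eq_norm_sq, Complex.normSq_apply]; ring
  have h2 := factor_sq hr hn.le hs2 hδ hx hc hc1
  have h3 : ‖(r : ℂ) ^ 2 + ρ ^ 2 - 2 * r * (c : ℂ) * ρ‖ ^ 2 =
      (r ^ 2 + ρ.re ^ 2 - ρ.im ^ 2 - 2 * r * c * ρ.re) ^ 2 + (2 * ρ.re * ρ.im - 2 * r * c * ρ.im) ^ 2 := by
    rw [← Complex.normSq_eq_norm_sq, Complex.normSq_apply]
    have a1 : ((r : ℂ) ^ 2 + ρ ^ 2 - 2 * r * (c : ℂ) * ρ).re = r ^ 2 + ρ.re ^ 2 - ρ.im ^ 2 - 2 * r * c * ρ.re := by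
      simp [pow_two]
      ring
    have a2 : ((r : ℂ) ^ 2 + ρ ^ 2 - 2 * r * (c : ℂ) * ρ).im = 2 * ρ.re * ρ.im - 2 * r * c * ρ.im := by
      simp [pow_two]
      ring
    rw [a1, a2]
    ring
  have h4 : ‖(r : ℂ) - ρ‖ ^ 2 = (r - ρ.re) ^ 2 + ρ.im ^ 2 := by
    rw [← Complex.normSq_eq_norm_sq, Complex.normSq_apply]
    simp
    ring
  rw [← h3, ← h4] at h2
  have h5 : 0 < ‖(r : ℂ) - ρ‖ := norm_pos_iff.2 h0
  set E := δ * (1 - c) * (‖ρ‖ * r / (r ^ 2 + ‖ρ‖ ^ 2)) with hE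
  have h6 : 1 - E ≤ Real.exp (-(E / 2)) ^ 2 := by
    rw [← Real.exp_nat_mul]
    have := Real.add_one_le_exp (-E)
    refine le_trans (by linarith) (this.trans (le_of_eq ?_))
    congr 1
    push_cast
    ring
  have h7 : ‖(r : ℂ) ^ 2 + ρ ^ 2 - 2 * r * (c : ℂ) * ρ‖ ^ 2 ≤ (Real.exp (-(E / 2)) * ‖(r : ℂ) - ρ‖ ^ 2) ^ 2 := by
    rw [mul_pow]
    exact h2.trans (mul_le_mul_of_nonneg_right h6 (by positivity))
  have h8 := le_of_sq_le_sq h7 (by positivity)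
  rw [h1, norm_div, norm_pow, div_le_iff₀ (by positivity)]
  refine h8.trans (le_of_eq ?_)
  congr 2
  rw [hE]
  ring

/-- a product bound -/
theorem prod_small {S : Multiset ℂ} {η : ℝ} (hη : 0 < η) (h : ∀ ρ ∈ S, ρ.re ≤ 0) :
    (S.map fun ρ => ‖ρ‖).prod ≤ η ^ (S.filter fun ρ => ‖ρ‖ < η).card * (S.map fun ρ => ‖1 - ρ‖).prod := by
  induction S using Multiset.induction_on with
  | empty => simp
  | cons a S ih =>
    have h1 := ih fun ρ hρ => h ρ (Multiset.mem_cons_of_mem hρ)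
    have ha := h a (Multiset.mem_cons_self a S)
    have h2 : ‖a‖ ^ 2 + 1 ≤ ‖1 - a‖ ^ 2 := by
      rw [← Complex.normSq_eq_norm_sq, ← Complex.normSq_eq_norm_sq, Complex.normSq_apply, Complex.normSq_apply]
      simp
      nlinarith
    have h3 : 1 ≤ ‖1 - a‖ := by nlinarith [norm_nonneg a, norm_nonneg (1 - a), sq_nonneg ‖a‖]
    have h4 : ‖a‖ ≤ ‖1 - a‖ := by
      have := norm_nonneg a
      have := norm_nonneg (1 - a)
      nlinarith
    have h5 : 0 ≤ (S.map fun ρ => ‖ρ‖).prod := Multiset.prod_nonneg fun x hx => by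
      obtain ⟨y, _, rfl⟩ := Multiset.mem_map.1 hx
      exact norm_nonneg y
    have h6 : 0 ≤ η ^ (S.filter fun ρ => ‖ρ‖ < η).card * (S.map fun ρ => ‖1 - ρ‖).prod := h5.trans h1
    rw [Multiset.map_cons, Multiset.prod_cons, Multiset.map_cons, Multiset.prod_cons]
    by_cases hs : ‖a‖ < η
    · rw [Multiset.filter_cons_of_pos (p := fun ρ : ℂ => ‖ρ‖ < η) _ hs, Multiset.card_cons, pow_succ]
      calc ‖a‖ * (S.map fun ρ => ‖ρ‖).prod ≤ (η * ‖1 - a‖) * (η ^ (S.filter fun ρ => ‖ρ‖ < η).card * (S.map fun ρ => ‖1 - ρ‖).prod) :=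
            mul_le_mul (by nlinarith) h1 h5 (by positivity)
        _ = _ := by ring
    · rw [Multiset.filter_cons_of_neg (p := fun ρ : ℂ => ‖ρ‖ < η) _ hs]
      calc ‖a‖ * (S.map fun ρ => ‖ρ‖).prod ≤ ‖1 - a‖ * (η ^ (S.filter fun ρ => ‖ρ‖ < η).card * (S.map fun ρ => ‖1 - ρ‖).prod) :=
            mul_le_mul h4 h1 h5 (norm_nonneg _)
        _ = _ := by ring

/-- at most `L / m` roots are smaller than `4 ^ (- m)` -/
theorem small_card {L m : ℕ} {P : ℝ[X]} (h : Nice L P) (h1 : P.eval 1 ≤ 4 ^ L) (hre : ∀ ρ ∈ Z P, ρ.re ≤ 0) :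
    m * ((Z P).filter fun ρ => ‖ρ‖ < ((4 : ℝ) ^ m)⁻¹).card ≤ L := by
  have hP : P.map (algebraMap ℝ ℂ) ≠ 0 := by
    intro h0
    have : P = 0 := by
      rwa [Polynomial.map_eq_zero] at h0
    have h2 := h.one
    rw [this, coeff_zero] at h2
    linarith
  set a := ‖(P.map (algebraMap ℝ ℂ)).leadingCoeff‖ with ha
  have ha0 : 0 < a := norm_pos_iff.2 (leadingCoeff_ne_zero.2 hP)
  have e : ∀ x : ℝ, ‖((P.eval x : ℝ) : ℂ)‖ = a * ((Z P).map fun ρ => ‖(x : ℂ) - ρ‖).prod := by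
    intro x
    rw [← aeval_real, aeval_def, ← eval_map, (IsAlgClosed.splits _).eval_eq_prod_roots, norm_mul]
    congr 1
    unfold Z
    generalize (P.map (algebraMap ℝ ℂ)).roots = S
    induction S using Multiset.induction_on with
    | empty => simp
    | cons b S ih => rw [Multiset.map_cons, Multiset.prod_cons, Multiset.map_cons, Multiset.prod_cons, norm_mul, ih]
  have e1 := e 1
  have e0 := e 0
  rw [Complex.norm_real, Real.norm_of_nonneg (eval_nonneg h.nn zero_le_one), Complex.ofReal_one] at e1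
  rw [Complex.norm_real, Real.norm_of_nonneg (eval_nonneg h.nn le_rfl), Complex.ofReal_zero] at e0
  have e2 : ((Z P).map fun ρ => ‖(0 : ℂ) - ρ‖).prod = ((Z P).map fun ρ => ‖ρ‖).prod := by
    congr 1
    refine Multiset.map_congr rfl fun ρ _ => ?_
    rw [zero_sub, norm_neg]
  rw [e2] at e0
  have h3 := prod_small (S := Z P) (η := ((4 : ℝ) ^ m)⁻¹) (by positivity) hre
  set k := ((Z P).filter fun ρ => ‖ρ‖ < ((4 : ℝ) ^ m)⁻¹).card with hk
  have h4 : 1 ≤ P.eval 0 := by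
    rw [← coeff_zero_eq_eval_zero]
    exact h.one
  have h5 : P.eval 0 ≤ (((4 : ℝ) ^ m)⁻¹) ^ k * P.eval 1 := by
    rw [e0, e1]
    calc a * ((Z P).map fun ρ => ‖ρ‖).prod ≤ a * ((((4 : ℝ) ^ m)⁻¹) ^ k * ((Z P).map fun ρ => ‖1 - ρ‖).prod) :=
          mul_le_mul_of_nonneg_left h3 ha0.le
      _ = _ := by ring
  have h6 : (4 : ℝ) ^ (m * k) ≤ 4 ^ L := by
    have h7 : 1 ≤ (((4 : ℝ) ^ m)⁻¹) ^ k * 4 ^ L :=
      h4.trans (h5.trans (mul_le_mul_of_nonneg_left h1 (by positivity)))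
    rw [inv_pow, ← pow_mul, inv_mul_eq_div, le_div_iff₀ (by positivity), one_mul] at h7
    exact h7
  exact (pow_le_pow_iff_right₀ (by norm_num)).1 h6

/-- **Decay from a sector.** -/
theorem dec_of_sector {δ T ε : ℝ} (hδ : 0 < δ) (hδ1 : δ ≤ 1) (hT : 1 ≤ T) (hε : 0 < ε) :
    ∃ κ : ℝ, 0 < κ ∧ κ ≤ 1 ∧ ∀ (L : ℕ) (P : ℝ[X]), Nice L P → P.eval 1 ≤ 4 ^ L → (∀ ρ ∈ Z P, ρ.re ≤ -(δ * ‖ρ‖)) →
      (∀ ρ ∈ Z P, ‖ρ‖ ≤ T) → ε * L ≤ P.natDegree → ∀ r θ : ℝ, 0 < r →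
      ‖aeval (pt r θ) P‖ ≤ Real.exp (-(κ * L * wt r * (1 - Real.cos θ))) * P.eval r := by
  obtain ⟨m, hm⟩ := exists_nat_ge (2 / ε)
  have hm0 : 0 < (m : ℝ) := lt_of_lt_of_le (by positivity) hm
  have hmε : 2 ≤ m * ε := by rwa [div_le_iff₀ hε] at hm
  obtain ⟨η, hη⟩ : ∃ η : ℝ, η = ((4 : ℝ) ^ m)⁻¹ := ⟨_, rfl⟩
  have hη0 : 0 < η := by rw [hη]; positivity
  have hη1 : η ≤ 1 := by
    rw [hη]
    exact inv_le_one_of_one_le₀ (one_le_pow₀ (by norm_num))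
  obtain ⟨c₀, hc₀⟩ : ∃ c₀ : ℝ, c₀ = min η (1 / T) := ⟨_, rfl⟩
  have hc0 : 0 < c₀ := by rw [hc₀]; exact lt_min hη0 (by positivity)
  have hcη : c₀ ≤ η := by rw [hc₀]; exact min_le_left _ _
  have hcT : c₀ * T ≤ 1 := by
    have : c₀ ≤ 1 / T := by rw [hc₀]; exact min_le_right _ _
    rwa [le_div_iff₀ (by linarith)] at this
  refine ⟨δ * c₀ * min ε 1 / 8, by positivity, ?_, fun L P h h1 hsec hfar hdeg r θ hr => ?_⟩
  · have a1 : min ε 1 ≤ 1 := min_le_right _ _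
    have a2 : 0 < min ε 1 := lt_min hε one_pos
    have a3 : δ * c₀ ≤ 1 := by nlinarith
    nlinarith [mul_pos hδ hc0]
  · obtain ⟨q, hq⟩ : ∃ q, q = 1 - Real.cos θ := ⟨_, rfl⟩
    have hq0 : 0 ≤ q := by rw [hq]; linarith [Real.cos_le_one θ]
    have hw : 0 < wt r := by unfold wt; positivity
    have hne : ∀ ρ ∈ Z P, ρ ≠ 0 := fun ρ hρ => root_ne_zero h.one hρ
    -- the product
    have hsq := sq_formula h θ hr
    have hn : ‖aeval (pt r θ) P‖ ^ 2 = (P.eval r) ^ 2 *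
        ‖((Z P).map fun ρ => 1 - 2 * (1 - (Real.cos θ : ℂ)) * (p r ρ * (1 - p r ρ))).prod‖ := by
      have := congrArg norm hsq
      rw [norm_mul, Complex.norm_real, Complex.norm_real, Real.norm_of_nonneg (by positivity), Real.norm_of_nonneg (by positivity)] at this
      exact this
    classical
    have hpr := norm_prod_le_exp (Z P) (fun ρ => 1 - 2 * (1 - (Real.cos θ : ℂ)) * (p r ρ * (1 - p r ρ)))
      (fun ρ => -(δ / 2 * q) * (if η ≤ ‖ρ‖ then c₀ * wt r else 0)) (fun ρ hρ => by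
        refine (factor_le hr (Real.cos_le_one θ) (Real.neg_one_le_cos θ) hδ (hne ρ hρ) (hsec ρ hρ)).trans ?_
        rw [Real.exp_le_exp, ← hq]
        have hρ0 : 0 < ‖ρ‖ := norm_pos_iff.2 (hne ρ hρ)
        have hT1 := hfar ρ hρ
        have key : (if η ≤ ‖ρ‖ then c₀ * wt r else 0) ≤ ‖ρ‖ * r / (r ^ 2 + ‖ρ‖ ^ 2) := by
          split_ifs with hs
          · unfold wt
            rw [← mul_div_assoc, div_le_div_iff₀ (by positivity) (by positivity)]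
            have b1 : c₀ * ‖ρ‖ ≤ 1 := le_trans (mul_le_mul_of_nonneg_left hT1 hc0.le) hcT
            have b2 : c₀ ≤ ‖ρ‖ := hcη.trans hs
            have b3 : c₀ * (r ^ 2 + ‖ρ‖ ^ 2) ≤ ‖ρ‖ * (1 + r) ^ 2 := by
              nlinarith [mul_le_mul_of_nonneg_right b2 (sq_nonneg r), mul_le_mul_of_nonneg_right b1 hρ0.le, mul_pos hρ0 hr]
            nlinarith [mul_le_mul_of_nonneg_left b3 hr.le]
          · positivity
        nlinarith [mul_le_mul_of_nonneg_left key (mul_nonneg hδ.le hq0)])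
    have hsum : ((Z P).map fun ρ => -(δ / 2 * q) * (if η ≤ ‖ρ‖ then c₀ * wt r else 0)).sum =
        -(δ / 2 * q) * (c₀ * wt r * ((Z P).filter fun ρ => η ≤ ‖ρ‖).card) := by
      rw [Multiset.sum_map_mul_left]
      congr 1
      generalize Z P = S
      induction S using Multiset.induction_on with
      | empty => simp
      | cons a S ih =>
        rw [Multiset.map_cons, Multiset.sum_cons, ih]
        by_cases hs : η ≤ ‖a‖
        · rw [if_pos hs, Multiset.filter_cons_of_pos (p := fun ρ : ℂ => η ≤ ‖ρ‖) _ hs, Multiset.card_cons]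
          push_cast
          ring
        · rw [if_neg hs, Multiset.filter_cons_of_neg (p := fun ρ : ℂ => η ≤ ‖ρ‖) _ hs]
          ring
    have hcard : ε / 2 * L ≤ ((Z P).filter fun ρ => η ≤ ‖ρ‖).card := by
      have c1 : ((Z P).filter fun ρ => ‖ρ‖ < η).card + ((Z P).filter fun ρ => η ≤ ‖ρ‖).card = P.natDegree := by
        have c2 : (Z P).card = P.natDegree := by
          unfold Z
          rw [← (IsAlgClosed.splits (P.map (algebraMap ℝ ℂ))).natDegree_eq_card_roots, natDegree_map]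
        rw [← c2, ← Multiset.card_add]
        congr 1
        have c3 := Multiset.filter_add_not (fun ρ : ℂ => ‖ρ‖ < η) (Z P)
        conv_rhs => rw [← c3]
        congr 1
        refine Multiset.filter_congr fun x _ => ?_
        rw [not_lt]
      have c4 : m * ((Z P).filter fun ρ => ‖ρ‖ < η).card ≤ L := by
        rw [hη]
        exact small_card h h1 fun ρ hρ => (hsec ρ hρ).trans (by have := norm_nonneg ρ; nlinarith)
      have c5 : (m : ℝ) * ((Z P).filter fun ρ => ‖ρ‖ < η).card ≤ L := by exact_mod_cast c4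
      have c6 : (((Z P).filter fun ρ => ‖ρ‖ < η).card : ℝ) + ((Z P).filter fun ρ => η ≤ ‖ρ‖).card = P.natDegree := by exact_mod_cast c1
      have c7 : (((Z P).filter fun ρ => ‖ρ‖ < η).card : ℝ) ≤ ε / 2 * L := by
        have c8 : (L : ℝ) ≤ m * (ε / 2 * L) := by
          have : (0 : ℝ) ≤ L := Nat.cast_nonneg L
          nlinarith
        exact le_of_mul_le_mul_left (c5.trans c8) hm0
      linarith
    have hev : 0 < P.eval r := h.eval_pos hr
    have hfin : ‖aeval (pt r θ) P‖ ^ 2 ≤ (Real.exp (-(δ * c₀ * min ε 1 / 8 * L * wt r * (1 - Real.cos θ))) * P.eval r) ^ 2 := by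
      rw [hn, mul_comm, mul_pow]
      refine mul_le_mul_of_nonneg_right ?_ (by positivity)
      refine hpr.trans ?_
      rw [hsum, ← Real.exp_nat_mul, Real.exp_le_exp, ← hq]
      have d1 : min ε 1 ≤ ε := min_le_left _ _
      have d2 : (0 : ℝ) ≤ L := Nat.cast_nonneg L
      have d3 : min ε 1 * L ≤ 2 * ((Z P).filter fun ρ => η ≤ ‖ρ‖).card := by nlinarith
      have d4 : 0 ≤ δ * q * c₀ * wt r := by positivity
      push_cast
      nlinarith [mul_le_mul_of_nonneg_left d3 d4]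
    exact le_of_sq_le_sq hfin (by positivity)

end Pool.Agent.Helper53.EV4
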