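import Pool.Agent.Helper53.EV4.Dec
import Pool.Agent.Helper53.EV4.Sec
import Pool.Agent.Helper57.EV4.Fin

/-!
# EV4b: almost all diagrams with small Seifert circles and large genus
-/

set_option autoImplicit false

namespace Pool.Agent.Helper53.EV4

open Polynomial Pool.Agent.Helper85.Exp Pool.Agent.Helper60.EV2 Pool.Agent.Helper57.EV Pool.Agent.Helper57.EV2 Pool.Agent.Helper43.Pln
  Pool.Agent.Helper43.V6 Pool.Agent.Helper74.EV4 Pool.Agent.Helper57.EV4

/-- the degree of `half p` -/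
theorem deg_half {p : ℤ[X]} (hpar : ∀ j k, p.coeff j ≠ 0 → p.coeff k ≠ 0 → j % 2 = k % 2) (h0 : p ≠ 0) :
    p.natDegree - p.natTrailingDegree ≤ 2 * (half p).natDegree := by
  have h1 : p.coeff p.natDegree ≠ 0 := by
    rw [coeff_natDegree]
    exact leadingCoeff_ne_zero.2 h0
  have h2 := hpar _ _ h1 (trailing_ne h0)
  have h3 := natTrailingDegree_le_natDegree p
  have h4 : (half p).coeff ((p.natDegree - p.natTrailingDegree) / 2) ≠ 0 := by
    rw [half_coeff]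
    have : p.natTrailingDegree + 2 * ((p.natDegree - p.natTrailingDegree) / 2) = p.natDegree := by omega
    rw [this]
    exact_mod_cast h1
  have h5 := le_natDegree_of_ne_zero h4
  omega

/-- **The hypothesis of the core from the zeros alone.** -/
theorem hyp_of_sector {N δ ε : ℝ} (hN : 8 ≤ N) (hδ : 0 < δ) (hδ1 : δ ≤ 1) (hε : 0 < ε) :
    ∃ κ : ℝ, 0 < κ ∧ κ ≤ 1 ∧ ∀ (p : ℤ[X]), (∀ k, 0 ≤ p.coeff k) → (∀ j k, p.coeff j ≠ 0 → p.coeff k ≠ 0 → j % 2 = k % 2) → p ≠ 0 →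
      ∀ L : ℕ, p.natDegree ≤ L → p.eval 1 ≤ 2 ^ L →
      (∀ z : ℂ, aeval z p = 0 → (z.re = 0 ∧ |z.im| ≤ 2) ∨ (8 ≤ N * |z.im| ∧ 4 * |z.re| ≤ N * |z.im| ∧ ‖z‖ ≤ N / 2)) →
      (∀ z : ℂ, aeval z p = 0 → (z ^ 2).re ≤ -(δ * ‖z ^ 2‖)) → ε * L ≤ (p.natDegree - p.natTrailingDegree : ℕ) →
      Hyp (4 / (N + 4)) (64 / N ^ 2) (N ^ 2) κ L (half p) := by
  obtain ⟨κ, hκ, hκ1, key⟩ := dec_of_sector (T := N ^ 2) hδ hδ1 (by nlinarith) (half_pos hε)
  refine ⟨κ, hκ, hκ1, fun p nn hpar h0 L hL h1 zf sec hdeg => ?_⟩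
  have h2 := toHyp (κ := 0) nn hpar h0 hL h1 hN zf (fun z _ => by
    rw [zero_mul, zero_mul, zero_mul, neg_zero, Real.exp_zero, one_mul, aeval_eq_sum_range, aeval_eq_sum_range]
    refine (norm_sum_le _ _).trans (Finset.sum_le_sum fun j _ => ?_)
    rw [zsmul_eq_mul, zsmul_eq_mul, norm_mul, norm_pow, Complex.norm_intCast]
    refine mul_le_mul_of_nonneg_right ?_ (by positivity)
    rw [abs_of_nonneg (by exact_mod_cast nn j)])
  refine ⟨h2.toNice, h2.dist, h2.far, h2.neg, h2.up, fun r θ hr _ => ?_⟩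
  refine key L (half p) h2.toNice h2.up (fun ρ hρ => ?_) h2.far ?_ r θ hr
  · obtain ⟨z, hz, hz0⟩ := root_half hpar h0 hρ
    rw [← hz]
    exact sec z hz0
  · have h3 : ((p.natDegree - p.natTrailingDegree : ℕ) : ℝ) ≤ 2 * (half p).natDegree := by exact_mod_cast deg_half hpar h0
    linarith

/-- **Almost all diagrams** for which the zeros lie strictly in the left half plane. -/
theorem fin_sector (core : Core4) {N δ : ℝ} (hN : 8 ≤ N) (hδ : 0 < δ) (hδ1 : δ ≤ 1) (K : ℕ) :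
    ∃ m₀ : ℕ, ∀ (P : Type) [Fintype P] (G : Sh P), Plane G → m₀ ≤ crossings G → ∀ nab : Dg G → ℤ[X], Cs nab →
      (∀ z : ℂ, aeval z (nab (allPos G)) = 0 → (z.re = 0 ∧ |z.im| ≤ 2) ∨ (8 ≤ N * |z.im| ∧ 4 * |z.re| ≤ N * |z.im| ∧ ‖z‖ ≤ N / 2)) →
      (∀ z : ℂ, aeval z (nab (allPos G)) = 0 → (z ^ 2).re ≤ -(δ * ‖z ^ 2‖)) →
      crossings G ≤ K * ((nab (allPos G)).natDegree - (nab (allPos G)).natTrailingDegree) → LogConcave G nab := by
  obtain ⟨κ, hκ, hκ1, key⟩ := hyp_of_sector (ε := 1 / (K + 1)) hN hδ hδ1 (by positivity)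
  have hadm : Adm (4 / (N + 4)) (64 / N ^ 2) (N ^ 2) κ := by
    refine ⟨by positivity, ?_, by positivity, ?_, ?_, hκ, hκ1⟩
    · rw [div_le_one (by linarith)]
      linarith
    · rw [div_le_one (by positivity)]
      nlinarith
    · nlinarith
  obtain ⟨L₀, hL₀⟩ := core _ _ _ _ hadm
  refine ⟨L₀, fun P _ G hG hm nab hn zf sec hK k => ?_⟩
  have hne := nonempty_of hG
  obtain ⟨nn, hdeg, hpar⟩ := Pool.Agent.Helper60.PD.nab_nn hG.cross hn
  have hcard := card_eq hG.cross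
  refine lc_int (fun i => ?_) _ k
  change ∀ k, 0 ≤ (nab (Pool.Agent.Helper43.Pln.allPos G)).coeff k at nn
  by_cases h0 : nab (allPos G) = 0
  · rw [h0]
    simp
  refine lc_of hpar h0 ?_ i
  refine hL₀ (crossings G) hm _ (key _ nn hpar h0 _ ?_ (eval_one_le hG.cross hn) zf sec ?_)
  · have h4 : 2 * (nab (allPos G)).natDegree ≤ Nat.card P := hdeg
    omega
  · have h5 : (crossings G : ℝ) ≤ K * (((nab (allPos G)).natDegree - (nab (allPos G)).natTrailingDegree : ℕ) : ℝ) := by exact_mod_cast hK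
    rw [div_mul_eq_mul_div, one_mul, div_le_iff₀ (by positivity)]
    nlinarith [(Nat.cast_nonneg ((nab (allPos G)).natDegree - (nab (allPos G)).natTrailingDegree) : (0 : ℝ) ≤ _)]

/-- **Small Seifert circles and large genus.** For every `K` the inequality of Q1 holds for all but finitely many diagrams with weights at most `12 / 5 + 7 / 5 * α` and
genus at least the number of crossings divided by `K`. -/
theorem fin12 (core : Core4) (K : ℕ) :
    ∃ m₀ : ℕ, ∀ (P : Type) [Fintype P] (G : Sh P), Plane G → ∀ α : ℝ, 0 ≤ α → α ≤ 1 →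
      (∀ p, weight α G p + weight α G (G.op p) ≤ 12 / 5 + 7 / 5 * α) → m₀ ≤ crossings G → ∀ nab : Dg G → ℤ[X], Cs nab →
      crossings G ≤ K * ((nab (allPos G)).natDegree - (nab (allPos G)).natTrailingDegree) → LogConcave G nab := by
  obtain ⟨m₀, key⟩ := fin_sector core (N := 16) (δ := 1 / 200) (by norm_num) (by norm_num) (by norm_num) K
  refine ⟨m₀, fun P _ G hG α h0 h1 hw hm nab hn hK => key P G hG hm nab hn (fun z hz => ?_) (fun z hz => ?_) hK⟩
  · refine zf_of_lens fun s hs0 hs1 hs => ?_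
    have h2 := lens_weight hG nab hn h0 h1 hw hs0 hs1 (by rw [hs]; exact hz)
    have h3 := abs_nonneg s.re
    have h4 := abs_nonneg s.im
    nlinarith [mul_nonneg h0 h3, mul_nonneg (by linarith : 0 ≤ 1 - α) h4]
  · refine sec_of_lens h0 h1 fun s hs0 hs1 hs => ?_
    exact lens_weight hG nab hn h0 h1 hw hs0 hs1 (by rw [hs]; exact hz)

end Pool.Agent.Helper53.EV4
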